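import Mathlib

namespace Pool.Agent.Results.MP_91ff8f_lc.PolyDualBound

open Finset

section core

variable {ι : Type*} [Fintype ι]

/-- Euclidean norm of a real vector (auxiliary, used only in the proof). -/
noncomputable def nrm (v : ι → ℝ) : ℝ := √(∑ i, v i ^ 2)

lemma nrm_nonneg (v : ι → ℝ) : 0 ≤ nrm v := Real.sqrt_nonneg _

lemma nrm_sq (v : ι → ℝ) : nrm v ^ 2 = ∑ i, v i ^ 2 :=
  Real.sq_sqrt (Finset.sum_nonneg fun _ _ => sq_nonneg _)

lemma dot_le (u v : ι → ℝ) : ∑ i, u i * v i ≤ nrm u * nrm v :=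
  Real.sum_mul_le_sqrt_mul_sqrt _ _ _

lemma nrm_mono {u v : ι → ℝ} (h0 : ∀ i, 0 ≤ u i) (h : ∀ i, u i ≤ v i) : nrm u ≤ nrm v := by
  apply Real.sqrt_le_sqrt
  apply Finset.sum_le_sum
  intro i _
  exact pow_le_pow_left₀ (h0 i) (h i) 2

lemma sum_sq_add (u v : ι → ℝ) :
    ∑ i, (u i + v i) ^ 2 = ∑ i, u i ^ 2 + 2 * ∑ i, u i * v i + ∑ i, v i ^ 2 := by
  rw [Finset.mul_sum, ← Finset.sum_add_distrib, ← Finset.sum_add_distrib]
  exact Finset.sum_congr rfl fun i _ => by ring

lemma nrm_add_le (u v : ι → ℝ) : nrm (fun i => u i + v i) ≤ nrm u + nrm v := by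
  have h1 := dot_le u v
  have h2 := nrm_sq (fun i => u i + v i)
  have h3 := nrm_sq u
  have h4 := nrm_sq v
  have h5 := sum_sq_add u v
  have h6 := nrm_nonneg u
  have h7 := nrm_nonneg v
  refine (sq_le_sq₀ (nrm_nonneg _) (by positivity)).mp ?_
  nlinarith

lemma dot_mono {u v u' v' : ι → ℝ} (hu : ∀ i, 0 ≤ u i) (hv : ∀ i, 0 ≤ v i)
    (huu : ∀ i, u i ≤ u' i) (hvv : ∀ i, v i ≤ v' i) : ∑ i, u i * v i ≤ ∑ i, u' i * v' i :=
  Finset.sum_le_sum fun i _ => mul_le_mul (huu i) (hvv i) (hv i) ((hu i).trans (huu i))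

lemma core (z a P z' Z : ι → ℝ) (bi β ρ' D : ℝ)
    (hz : ∀ i, 0 ≤ z i) (ha : ∀ i, 0 ≤ a i) (hP : ∀ i, 0 ≤ P i) (hz' : ∀ i, 0 ≤ z' i)
    (hPz : ∀ i, P i ≤ z i) (hPr : ∀ i, z' i + P i ≤ Z i) (hzZ : ∀ i, z i ≤ Z i)
    (hbi : 0 ≤ bi) (hβ : 0 ≤ β) (hβρ : β ≤ ρ') (hD : 0 ≤ D)
    (h1 : nrm Z + ρ' < nrm (fun i => z' i + a i) + bi)
    (v : ι → ℝ) (hv : ∀ i, v i = (nrm (fun i => z i + a i))⁻¹ * (z i + a i))
    (h2 : D * (∑ i, a i * v i + bi) ≤ ∑ i, P i * v i + β)
    (h3 : ∑ i, a i * (z' i + a i) + bi * nrm (fun i => z' i + a i) ≤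
      ∑ i, a i * (z i + a i) + bi * nrm (fun i => z i + a i)) : D < 4 := by
  set N := nrm (fun i => z i + a i) with hN
  set N' := nrm (fun i => z' i + a i) with hN'
  set M := nrm Z with hM
  have hN0 : 0 ≤ N := nrm_nonneg _
  have hN'0 : 0 ≤ N' := nrm_nonneg _
  have hM0 : 0 ≤ M := nrm_nonneg _
  have hvN : ∀ i, N * v i = z i + a i := by
    intro i
    rcases eq_or_ne N 0 with h | h
    · have hs : ∑ i, (z i + a i) ^ 2 = 0 := by
        have := nrm_sq (fun i => z i + a i)
        rw [← hN, h] at this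
        simpa using this.symm
      have := (Finset.sum_eq_zero_iff_of_nonneg (fun i _ => sq_nonneg (z i + a i))).1 hs i
        (Finset.mem_univ _)
      have h0 : z i + a i = 0 := by simpa using this
      rw [h, h0]; simp
    · rw [hv i, ← mul_assoc, mul_inv_cancel₀ h, one_mul]
  have hv0 : ∀ i, 0 ≤ v i := fun i => by
    rw [hv i]; exact mul_nonneg (inv_nonneg.2 hN0) (add_nonneg (hz i) (ha i))
  have hv1 : nrm v ≤ 1 := by
    refine (sq_le_sq₀ (nrm_nonneg _) (by norm_num)).mp ?_
    rw [nrm_sq]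
    have e : ∑ i, v i ^ 2 = (N⁻¹) ^ 2 * N ^ 2 := by
      rw [hN, nrm_sq, Finset.mul_sum]
      refine Finset.sum_congr rfl fun i _ => ?_
      rw [hv i]; ring
    rw [e]
    rcases eq_or_ne N 0 with h | h
    · rw [h]; norm_num
    · rw [← mul_pow, inv_mul_cancel₀ h]
  have hP1 : ∑ i, P i * v i ≤ M := by
    calc ∑ i, P i * v i ≤ nrm P * nrm v := dot_le _ _
      _ ≤ nrm P * 1 := by gcongr; exact nrm_nonneg _
      _ = nrm P := mul_one _
      _ ≤ M := nrm_mono hP fun i => (hPz i).trans (hzZ i)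
  have hav : 0 ≤ ∑ i, a i * v i := Finset.sum_nonneg fun i _ => mul_nonneg (ha i) (hv0 i)
  by_contra hD4
  push Not at hD4
  rcases le_or_gt N' (M / 2) with hc | hc
  · nlinarith [mul_nonneg hD hav]
  · -- main case
    have e1 : M ^ 2 = ∑ i, Z i ^ 2 := nrm_sq _
    have e2 : N' ^ 2 = ∑ i, z' i ^ 2 + 2 * ∑ i, z' i * a i + ∑ i, a i ^ 2 := by
      rw [hN', nrm_sq, sum_sq_add]
    have e3 : ∑ i, z' i ^ 2 + ∑ i, P i * z i ≤ ∑ i, Z i ^ 2 := by
      rw [← Finset.sum_add_distrib]
      refine Finset.sum_le_sum fun i _ => ?_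
      nlinarith [hP i, hz i, hz' i, hPr i, hzZ i, mul_nonneg (hP i) (sub_nonneg.2 (hzZ i)),
        mul_nonneg (hz' i) (hP i), mul_nonneg (sub_nonneg.2 (hPr i)) (add_nonneg (hz' i) (hP i)),
        mul_nonneg (sub_nonneg.2 (hPr i)) (hz' i), mul_nonneg (hP i) (sub_nonneg.2 (hPr i)), mul_nonneg (sub_nonneg.2 (hPr i)) ((hz i).trans (hzZ i))]
    have e4 : ∑ i, a i * (z' i + a i) = ∑ i, z' i * a i + ∑ i, a i ^ 2 := by
      rw [← Finset.sum_add_distrib]
      exact Finset.sum_congr rfl fun i _ => by ring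
    have e5 : ∑ i, P i * (z i + a i) = ∑ i, P i * z i + ∑ i, P i * a i := by
      rw [← Finset.sum_add_distrib]
      exact Finset.sum_congr rfl fun i _ => by ring
    have e6 : N * ∑ i, P i * v i = ∑ i, P i * (z i + a i) := by
      rw [Finset.mul_sum]
      exact Finset.sum_congr rfl fun i _ => by rw [← hvN i]; ring
    have e7 : N * ∑ i, a i * v i = ∑ i, a i * (z i + a i) := by
      rw [Finset.mul_sum]
      exact Finset.sum_congr rfl fun i _ => by rw [← hvN i]; ring
    have e8 : ∑ i, P i * a i ≤ ∑ i, a i * (z i + a i) := by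
      refine Finset.sum_le_sum fun i _ => ?_
      nlinarith [mul_nonneg (ha i) (sub_nonneg.2 (hPz i)), mul_nonneg (ha i) (ha i)]
    have e9 : N ≤ M + N' := by
      calc N ≤ nrm z + nrm a := nrm_add_le _ _
        _ ≤ M + N' := add_le_add (nrm_mono hz hzZ)
            (nrm_mono ha fun i => le_add_of_nonneg_left (hz' i))
    have e10 : 0 ≤ ∑ i, a i ^ 2 := Finset.sum_nonneg fun i _ => sq_nonneg _
    have e11 : 0 ≤ ∑ i, z' i * a i := Finset.sum_nonneg fun i _ => mul_nonneg (hz' i) (ha i)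
    have e12 : 0 ≤ ∑ i, a i * (z i + a i) :=
      Finset.sum_nonneg fun i _ => mul_nonneg (ha i) (add_nonneg (hz i) (ha i))
    -- multiply `h2` by `N`
    have f1 : D * (∑ i, a i * (z i + a i) + bi * N) ≤
        ∑ i, P i * z i + ∑ i, P i * a i + β * N := by
      have := mul_le_mul_of_nonneg_left h2 hN0
      rw [← e7, ← e5, ← e6]
      nlinarith
    have f2 : (M + ρ' - N' - bi) * (M + N') < 0 := by
      apply mul_neg_of_neg_of_pos <;> linarith
    set θ := ∑ i, a i * (z i + a i) + bi * N with hθ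
    set θ' := ∑ i, a i * (z' i + a i) + bi * N' with hθ'
    have hθ0 : 0 ≤ θ := by positivity
    have f3 : ∑ i, P i * z i + β * (M + N') < 2 * ∑ i, a i * (z' i + a i) + bi * (M + N') := by
      have g1 : β * (M + N') ≤ ρ' * (M + N') := by gcongr
      have g2 : (M + ρ' - N' - bi) * (M + N') =
          M ^ 2 - N' ^ 2 + ρ' * (M + N') - bi * (M + N') := by ring
      rw [g2] at f2
      rw [e4]
      linarith
    have f4 : β * N ≤ β * (M + N') := by gcongr
    have f5 : ∑ i, P i * a i ≤ θ := by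
      have : 0 ≤ bi * N := by positivity
      linarith
    have f6 : bi * (M + N') ≤ 3 * (bi * N') := by
      have g : M + N' ≤ 3 * N' := by linarith
      calc bi * (M + N') ≤ bi * (3 * N') := by gcongr
        _ = 3 * (bi * N') := by ring
    have f7 : 2 * ∑ i, a i * (z' i + a i) ≤ 3 * ∑ i, a i * (z' i + a i) := by
      rw [e4]; linarith
    have f8 : 4 * θ ≤ D * θ := by gcongr
    linarith

end core

section combinatorics

lemma sum_choose_le (n m : ℕ) : ∑ k ∈ Finset.range (m + 1), n.choose k ≤ (n + 1) ^ m := by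
  induction m with
  | zero => simp
  | succ m ih =>
    rw [Finset.sum_range_succ]
    have h1 : n.choose (m + 1) ≤ n * (n + 1) ^ m := by
      calc n.choose (m + 1) ≤ n ^ (m + 1) := Nat.choose_le_pow _ _
        _ = n * n ^ m := by ring
        _ ≤ n * (n + 1) ^ m := by gcongr; omega
    calc _ ≤ (n + 1) ^ m + n * (n + 1) ^ m := add_le_add ih h1
      _ = (n + 1) ^ (m + 1) := by ring

/-- If `𝒜` is linearly preordered by `θ` so that a smaller member misses at most three elements
of each larger one, then `𝒜` has at most `(n + 1) ^ 7` members. -/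
lemma card_family_le {n : ℕ} (𝒜 : Finset (Finset (Fin n))) 
    (h : ∀ u ∈ 𝒜, ∀ w ∈ 𝒜, (u \ w).card ≤ 3 ∨ (w \ u).card ≤ 3) :
    𝒜.card ≤ (n + 1) ^ 7 := by
  have hvc : 𝒜.vcDim ≤ 7 := by
    refine Finset.sup_le fun s hs => ?_
    rw [Finset.mem_shatterer] at hs
    by_contra hcard
    push Not at hcard
    obtain ⟨T, hTs, hT⟩ := Finset.exists_subset_card_eq (show 4 ≤ s.card by omega)
    obtain ⟨u, hu, hu'⟩ := hs hTs
    obtain ⟨w, hw, hw'⟩ := hs (Finset.sdiff_subset : s \ T ⊆ s)
    have hsT : 4 ≤ (s \ T).card := by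
      rw [Finset.card_sdiff_of_subset hTs]; omega
    have h1 : T ⊆ u \ w := by
      intro j hj
      have hju : j ∈ s ∩ u := by rw [hu']; exact hj
      have hjw : j ∉ s ∩ w := by rw [hw']; simp [hj]
      simp only [Finset.mem_inter, Finset.mem_sdiff, not_and] at hju hjw ⊢
      exact ⟨hju.2, hjw hju.1⟩
    have h2 : s \ T ⊆ w \ u := by
      intro j hj
      have hjw : j ∈ s ∩ w := by rw [hw']; exact hj
      have hju : j ∉ s ∩ u := by rw [hu']; exact (Finset.mem_sdiff.1 hj).2
      simp only [Finset.mem_inter, Finset.mem_sdiff, not_and] at hju hjw ⊢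
      exact ⟨hjw.2, hju hjw.1⟩
    have h3 := Finset.card_le_card h1
    have h4 := Finset.card_le_card h2
    rcases h u hu w hw with h5 | h5 <;> omega
  calc 𝒜.card ≤ 𝒜.shatterer.card := Finset.card_le_card_shatterer _
    _ ≤ ∑ k ∈ Finset.Iic 𝒜.vcDim, (Fintype.card (Fin n)).choose k :=
        Finset.card_shatterer_le_sum_vcDim
    _ ≤ ∑ k ∈ Finset.range (7 + 1), n.choose k := by
        rw [Fintype.card_fin]
        refine Finset.sum_le_sum_of_subset fun k hk => ?_
        simp only [Finset.mem_Iic, Finset.mem_range] at hk ⊢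
        omega
    _ ≤ (n + 1) ^ 7 := sum_choose_le _ _

end combinatorics

/-- The second-order cone function `f x = ‖A x‖₂ + bᵀ x`. -/
noncomputable def socFun {d n : ℕ} (A : Matrix (Fin d) (Fin n) ℝ) (b : Fin n → ℝ)
    (x : Fin n → ℤ) : ℝ :=
  √(∑ r, (∑ j, A r j * (x j : ℝ)) ^ 2) + ∑ j, b j * (x j : ℝ)

/-- The family of maximal feasible vectors: the maximal elements of
`{x ∈ ℤⁿ : 0 ≤ x ≤ c, f x ≤ t}` for the componentwise order. -/
def maximalFeasible {n : ℕ} (c : Fin n → ℤ) (f : (Fin n → ℤ) → ℝ) (t : ℝ) : Set (Fin n → ℤ) :=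
  {x | Maximal (fun x => (0 ≤ x ∧ x ≤ c) ∧ f x ≤ t) x}

/-- `I(𝒜)`: the minimal elements of the set of those `x` in the box `0 ≤ x ≤ c` that are
not dominated by (not `≤`) any element of `𝒜`. -/
def minimalNonDominated {n : ℕ} (c : Fin n → ℤ) (𝒜 : Set (Fin n → ℤ)) : Set (Fin n → ℤ) :=
  {x | Minimal (fun x => (0 ≤ x ∧ x ≤ c) ∧ ∀ a ∈ 𝒜, ¬ x ≤ a) x}

section fibre

variable {d n : ℕ} (A : Matrix (Fin d) (Fin n) ℝ) (b : Fin n → ℝ)

/-- `A x` -/
def lin (x : Fin n → ℤ) (r : Fin d) : ℝ := ∑ j, A r j * (x j : ℝ)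

/-- `b x` -/
def lb (x : Fin n → ℤ) : ℝ := ∑ j, b j * (x j : ℝ)

/-- unit vector in the direction of `A x` -/
noncomputable def dir (x : Fin n → ℤ) (r : Fin d) : ℝ := (nrm (lin A x))⁻¹ * lin A x r

/-- gradient vector -/
noncomputable def grad (x : Fin n → ℤ) (j : Fin n) : ℝ := ∑ r, A r j * dir A x r + b j

/-- ordering parameter -/
noncomputable def theta (i : Fin n) (x : Fin n → ℤ) : ℝ :=
  ∑ r, A r i * lin A x r + b i * nrm (lin A x)

lemma socFun_eq (x : Fin n → ℤ) : socFun A b x = nrm (lin A x) + lb b x := rfl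

lemma lin_add (x y : Fin n → ℤ) (r : Fin d) : lin A (x + y) r = lin A x r + lin A y r := by
  simp only [lin, Pi.add_apply, Int.cast_add, mul_add, Finset.sum_add_distrib]

lemma lb_add (x y : Fin n → ℤ) : lb b (x + y) = lb b x + lb b y := by
  simp only [lb, Pi.add_apply, Int.cast_add, mul_add, Finset.sum_add_distrib]

lemma lin_single (i : Fin n) (r : Fin d) : lin A (Pi.single i 1) r = A r i := by
  unfold lin
  rw [Finset.sum_eq_single i]
  · simp
  · intro j _ hj; simp [Pi.single_eq_of_ne hj]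
  · simp

lemma lb_single (i : Fin n) : lb b (Pi.single i 1) = b i := by
  unfold lb
  rw [Finset.sum_eq_single i]
  · simp
  · intro j _ hj; simp [Pi.single_eq_of_ne hj]
  · simp

variable {A b}

lemma lin_mono (hA : ∀ r j, 0 ≤ A r j) {x y : Fin n → ℤ} (h : x ≤ y) (r : Fin d) :
    lin A x r ≤ lin A y r := by
  refine Finset.sum_le_sum fun j _ => mul_le_mul_of_nonneg_left ?_ (hA r j)
  exact_mod_cast h j

lemma lin_nonneg (hA : ∀ r j, 0 ≤ A r j) {x : Fin n → ℤ} (h : 0 ≤ x) (r : Fin d) :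
    0 ≤ lin A x r :=
  Finset.sum_nonneg fun j _ => mul_nonneg (hA r j) (by exact_mod_cast h j)

lemma lb_mono (hb : ∀ j, 0 ≤ b j) {x y : Fin n → ℤ} (h : x ≤ y) : lb b x ≤ lb b y := by
  refine Finset.sum_le_sum fun j _ => mul_le_mul_of_nonneg_left ?_ (hb j)
  exact_mod_cast h j

lemma dir_nonneg (hA : ∀ r j, 0 ≤ A r j) {x : Fin n → ℤ} (h : 0 ≤ x) (r : Fin d) :
    0 ≤ dir A x r := mul_nonneg (inv_nonneg.2 (nrm_nonneg _)) (lin_nonneg hA h r)

lemma grad_nonneg (hA : ∀ r j, 0 ≤ A r j) (hb : ∀ j, 0 ≤ b j) {x : Fin n → ℤ} (h : 0 ≤ x)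
    (j : Fin n) : 0 ≤ grad A b x j :=
  add_nonneg (Finset.sum_nonneg fun r _ => mul_nonneg (hA r j) (dir_nonneg hA h r)) (hb j)

lemma nrm_dir_le (x : Fin n → ℤ) : nrm (dir A x) ≤ 1 := by
  refine (sq_le_sq₀ (nrm_nonneg _) (by norm_num)).mp ?_
  rw [nrm_sq]
  have e : ∑ r, dir A x r ^ 2 = (nrm (lin A x))⁻¹ ^ 2 * nrm (lin A x) ^ 2 := by
    rw [nrm_sq (lin A x), Finset.mul_sum]
    refine Finset.sum_congr rfl fun r _ => ?_
    unfold dir; ring
  rw [e]
  rcases eq_or_ne (nrm (lin A x)) 0 with h | h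
  · rw [h]; norm_num
  · rw [← mul_pow, inv_mul_cancel₀ h]

lemma grad_sum (x y : Fin n → ℤ) :
    ∑ j, grad A b x j * (y j : ℝ) = ∑ r, lin A y r * dir A x r + lb b y := by
  simp only [grad, lb, lin, add_mul, Finset.sum_add_distrib, Finset.sum_mul]
  congr 1
  rw [Finset.sum_comm]
  exact Finset.sum_congr rfl fun r _ => Finset.sum_congr rfl fun j _ => by ring

lemma grad_self (x : Fin n → ℤ) : ∑ j, grad A b x j * (x j : ℝ) = socFun A b x := by
  rw [grad_sum, socFun_eq]
  congr 1
  have e : ∑ r, lin A x r * dir A x r = (nrm (lin A x))⁻¹ * nrm (lin A x) ^ 2 := by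
    rw [nrm_sq, Finset.mul_sum]
    exact Finset.sum_congr rfl fun r _ => by unfold dir; ring
  rw [e]
  rcases eq_or_ne (nrm (lin A x)) 0 with h | h
  · rw [h]; norm_num
  · rw [sq, ← mul_assoc, inv_mul_cancel₀ h, one_mul]

lemma grad_le (x y : Fin n → ℤ) : ∑ j, grad A b x j * (y j : ℝ) ≤ socFun A b y := by
  rw [grad_sum, socFun_eq]
  gcongr
  calc _ ≤ nrm (lin A y) * nrm (dir A x) := dot_le _ _
    _ ≤ nrm (lin A y) * 1 := by gcongr; exacts [nrm_nonneg _, nrm_dir_le x]
    _ = _ := mul_one _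

variable (A b)

/-- The `i`-th unit vector. -/
def unitVec (i : Fin n) : Fin n → ℤ := Pi.single i 1

lemma unitVec_nonneg (i : Fin n) : (0 : Fin n → ℤ) ≤ unitVec i := by
  intro k
  by_cases hk : k = i
  · subst hk; simp [unitVec]
  · simp [unitVec, Pi.single_eq_of_ne hk]

lemma unitVec_self (i : Fin n) : unitVec i i = 1 := by simp [unitVec]

lemma unitVec_ne {i k : Fin n} (hk : k ≠ i) : unitVec i k = 0 := by
  simp [unitVec, Pi.single_eq_of_ne hk]

lemma sum_unitVec (g : Fin n → ℝ) (i : Fin n) : ∑ k, g k * (unitVec i k : ℝ) = g i := by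
  rw [Finset.sum_eq_single i]
  · simp [unitVec_self]
  · intro k _ hk; simp [unitVec_ne hk]
  · simp

lemma lin_unitVec (i : Fin n) (r : Fin d) : lin A (unitVec i) r = A r i := sum_unitVec _ _

lemma lb_unitVec (i : Fin n) : lb b (unitVec i) = b i := sum_unitVec _ _

/-- The vectors `s` such that `x = s + e_i` is infeasible, `s ≤ y` and `i` minimises the
gradient of `f` at `x` over the support of `x`. -/
def fibre (t : ℝ) (i : Fin n) (y : Fin n → ℤ) : Set (Fin n → ℤ) :=
  {s | 0 ≤ s ∧ s ≤ y ∧ t < socFun A b (s + unitVec i) ∧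
    ∀ j, (s + unitVec i) j ≠ 0 → grad A b (s + unitVec i) i ≤ grad A b (s + unitVec i) j}

/-- support of `s` -/
def supp (s : Fin n → ℤ) : Finset (Fin n) := Finset.univ.filter fun j => s j ≠ 0

variable {A b}

lemma eq_on_supp (hA : ∀ r j, 0 ≤ A r j) (hb : ∀ j, 0 ≤ b j) {t : ℝ} {i : Fin n}
    {y s : Fin n → ℤ} (hy : socFun A b y ≤ t) (hs : s ∈ fibre A b t i y) {j : Fin n}
    (hj : s j ≠ 0) : s j = y j := by
  obtain ⟨h0, h1, h2, h3⟩ := hs
  set x := s + unitVec i with hx
  have hx0 : 0 ≤ x := add_nonneg h0 (unitVec_nonneg i)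
  by_contra hne
  have hlt : s j < y j := lt_of_le_of_ne (h1 j) hne
  have hxj : x j ≠ 0 := by
    have e2 : 0 ≤ s j := h0 j
    have e3 : 0 ≤ unitVec i j := unitVec_nonneg i j
    have e4 : x j = s j + unitVec i j := rfl
    omega
  have hgj := h3 j hxj
  -- compare the linear functional `grad x` on `x` and `y`
  have e1 : ∑ k, grad A b x k * (y k : ℝ) ≤ t := (grad_le x y).trans hy
  have e2 : t < ∑ k, grad A b x k * (x k : ℝ) := by rw [grad_self]; exact h2
  have e3 : ∑ k, grad A b x k * (x k : ℝ) =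
      ∑ k, grad A b x k * (s k : ℝ) + grad A b x i := by
    rw [← sum_unitVec (grad A b x) i, ← Finset.sum_add_distrib]
    refine Finset.sum_congr rfl fun k _ => ?_
    rw [hx, Pi.add_apply]; push_cast; ring
  have e4 : ∑ k, grad A b x k * (s k : ℝ) + grad A b x j ≤
      ∑ k, grad A b x k * (y k : ℝ) := by
    rw [← sum_unitVec (grad A b x) j, ← Finset.sum_add_distrib]
    refine Finset.sum_le_sum fun k _ => ?_
    rw [← mul_add]
    refine mul_le_mul_of_nonneg_left ?_ (grad_nonneg hA hb hx0 k)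
    by_cases hk : k = j
    · subst hk
      have h' : ((s k + 1 : ℤ) : ℝ) ≤ (y k : ℝ) := by exact_mod_cast hlt
      rw [unitVec_self]
      simpa using h'
    · have h' : (s k : ℝ) ≤ (y k : ℝ) := by exact_mod_cast h1 k
      rw [unitVec_ne hk]
      simpa using h'
  linarith

lemma fibre_inj (hA : ∀ r j, 0 ≤ A r j) (hb : ∀ j, 0 ≤ b j) {t : ℝ} {i : Fin n}
    {y s s' : Fin n → ℤ} (hy : socFun A b y ≤ t) (hs : s ∈ fibre A b t i y)
    (hs' : s' ∈ fibre A b t i y) (h : supp s = supp s') : s = s' := by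
  funext j
  have hj : (s j ≠ 0) ↔ (s' j ≠ 0) := by
    have := Finset.ext_iff.1 h j
    simpa [supp] using this
  by_cases h0 : s j = 0
  · have : s' j = 0 := by
      by_contra h1
      exact (hj.2 h1) h0
    rw [h0, this]
  · rw [eq_on_supp hA hb hy hs h0, eq_on_supp hA hb hy hs' (hj.1 h0)]

lemma card_sdiff_le (hA : ∀ r j, 0 ≤ A r j) (hb : ∀ j, 0 ≤ b j) {t : ℝ} {i : Fin n}
    {y s s' : Fin n → ℤ} (hy : socFun A b y ≤ t) (hs : s ∈ fibre A b t i y)
    (hs' : s' ∈ fibre A b t i y)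
    (hth : theta A b i (s' + unitVec i) ≤ theta A b i (s + unitVec i)) :
    (supp s \ supp s').card ≤ 3 := by
  have hon : ∀ j, s j ≠ 0 → s j = y j := fun j hj => eq_on_supp hA hb hy hs hj
  obtain ⟨h0, h1, h2, h3⟩ := hs
  obtain ⟨h0', h1', h2', -⟩ := hs'
  set D := supp s \ supp s' with hD
  -- the part of `y` on `D`
  let p : Fin n → ℤ := fun j => if j ∈ D then y j else 0
  have hDmem : ∀ j ∈ D, s j ≠ 0 ∧ s' j = 0 := by
    intro j hj
    simp only [hD, supp, Finset.mem_sdiff, Finset.mem_filter, Finset.mem_univ, true_and,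
      not_not] at hj
    exact hj
  have hy0 : 0 ≤ y := h0.trans h1
  have hp0 : 0 ≤ p := by
    intro j; simp only [p]; split_ifs
    · exact hy0 j
    · exact le_refl _
  have hps : p ≤ s := by
    intro j; simp only [p]; split_ifs with hj
    · exact (hon j (hDmem j hj).1).ge
    · exact h0 j
  have hps' : s' + p ≤ y := by
    intro j; simp only [p, Pi.add_apply]; split_ifs with hj
    · rw [(hDmem j hj).2, zero_add]
    · rw [add_zero]; exact h1' j
  have hlt : (D.card : ℝ) < 4 := by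
    have key := core (lin A s) (fun r => A r i) (lin A p) (lin A s') (lin A y)
      (b i) (lb b p) (lb b y - lb b s') (D.card : ℝ)
      (lin_nonneg hA h0) (fun r => hA r i) (lin_nonneg hA hp0) (lin_nonneg hA h0')
      (lin_mono hA hps)
      (fun r => by rw [← lin_add]; exact lin_mono hA hps' r)
      (lin_mono hA h1) (hb i)
      (by have := lb_mono hb hp0; simpa [lb] using this)
      (by have := lb_mono hb hps'; rw [lb_add] at this; linarith)
      (Nat.cast_nonneg _)
    have hls : (fun r => lin A s r + A r i) = lin A (s + unitVec i) := by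
      funext r; rw [lin_add, lin_unitVec]
    have hls' : (fun r => lin A s' r + A r i) = lin A (s' + unitVec i) := by
      funext r; rw [lin_add, lin_unitVec]
    refine key ?_ (dir A (s + unitVec i)) ?_ ?_ ?_
    · rw [hls']
      rw [socFun_eq] at hy h2'
      rw [lb_add, lb_unitVec] at h2'
      linarith
    · intro r
      rw [hls]
      unfold dir
      rw [lin_add, lin_unitVec]
    · -- sum of the gradients over `D`
      have g1 : ∑ r, A r i * dir A (s + unitVec i) r + b i = grad A b (s + unitVec i) i := rfl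
      rw [g1]
      have g2 := grad_sum (A := A) (b := b) (s + unitVec i) p
      rw [← g2]
      have g3 : ∀ j ∈ D, grad A b (s + unitVec i) i ≤ grad A b (s + unitVec i) j * (p j : ℝ) := by
        intro j hj
        have hsj := (hDmem j hj).1
        have hsj0 : 0 ≤ s j := h0 j
        have hxj : (s + unitVec i) j ≠ 0 := by
          have e3 : 0 ≤ unitVec i j := unitVec_nonneg i j
          have e4 : (s + unitVec i) j = s j + unitVec i j := rfl
          omega
        have g4 := h3 j hxj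
        have g5 : (1 : ℝ) ≤ (p j : ℝ) := by
          have : p j = s j := by simp only [p, if_pos hj]; exact (hon j hsj).symm
          rw [this]
          have : (1 : ℤ) ≤ s j := by omega
          exact_mod_cast this
        have g6 : 0 ≤ grad A b (s + unitVec i) j :=
          grad_nonneg hA hb (add_nonneg h0 (unitVec_nonneg i)) j
        nlinarith
      calc (D.card : ℝ) * grad A b (s + unitVec i) i
          = ∑ j ∈ D, grad A b (s + unitVec i) i := by rw [Finset.sum_const, nsmul_eq_mul]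
        _ ≤ ∑ j ∈ D, grad A b (s + unitVec i) j * (p j : ℝ) := Finset.sum_le_sum g3
        _ ≤ ∑ j, grad A b (s + unitVec i) j * (p j : ℝ) := by
            refine Finset.sum_le_sum_of_subset_of_nonneg (Finset.subset_univ _) fun j _ _ => ?_
            exact mul_nonneg (grad_nonneg hA hb (add_nonneg h0 (unitVec_nonneg i)) j)
              (by exact_mod_cast hp0 j)
    · rw [hls, hls']
      have hth' := hth
      simp only [theta, lin_add, lin_unitVec] at hth'
      exact hth'
  have : D.card < 4 := by exact_mod_cast hlt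
  omega

lemma fibre_finite (t : ℝ) (i : Fin n) (y : Fin n → ℤ) : (fibre A b t i y).Finite :=
  (Set.finite_Icc (0 : Fin n → ℤ) y).subset fun _ hs => ⟨hs.1, hs.2.1⟩

lemma fibre_ncard_le (hA : ∀ r j, 0 ≤ A r j) (hb : ∀ j, 0 ≤ b j) {t : ℝ} {i : Fin n}
    {y : Fin n → ℤ} (hy : socFun A b y ≤ t) :
    (fibre_finite (A := A) (b := b) t i y).toFinset.card ≤ (n + 1) ^ 7 := by
  classical
  rw [← Finset.card_image_of_injOn (f := supp) (s := (fibre_finite t i y).toFinset)]
  · apply card_family_le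
    intro u hu w hw
    obtain ⟨s, hs, rfl⟩ := Finset.mem_image.1 hu
    obtain ⟨s', hs', rfl⟩ := Finset.mem_image.1 hw
    rw [Set.Finite.mem_toFinset] at hs hs'
    rcases le_total (theta A b i (s' + unitVec i)) (theta A b i (s + unitVec i)) with h | h
    · exact Or.inl (card_sdiff_le hA hb hy hs hs' h)
    · exact Or.inr (card_sdiff_le hA hb hy hs' hs h)
  · intro s hs s' hs' h
    rw [Finset.mem_coe, Set.Finite.mem_toFinset] at hs hs'
    exact fibre_inj hA hb hy hs hs' h

end fibre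

/-- **Polynomial dual bound for a single second-order cone inequality**, with a polynomial that
does not depend on the number `d` of rows. -/
theorem result {n d : ℕ} (A : Matrix (Fin d) (Fin n) ℝ) (b : Fin n → ℝ) (t : ℝ)
    (c : Fin n → ℤ) (hA : ∀ r j, 0 ≤ A r j) (hb : ∀ j, 0 ≤ b j)
    (Y : Set (Fin n → ℤ)) (hY : Y ⊆ maximalFeasible c (socFun A b) t) :
    (minimalNonDominated c Y ∩
        minimalNonDominated c (maximalFeasible c (socFun A b) t)).ncard ≤
      1 + n * (n + 1) ^ 7 * Y.ncard := by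
  classical
  set F := maximalFeasible c (socFun A b) t with hF
  have hYfin : Y.Finite := by
    refine (Set.finite_Icc (0 : Fin n → ℤ) c).subset fun y hy => ?_
    exact ⟨(hY hy).1.1.1, (hY hy).1.1.2⟩
  -- elements of `I(F)` are infeasible
  have hinf : ∀ x ∈ minimalNonDominated c F, t < socFun A b x := by
    intro x hx
    by_contra hle
    push Not at hle
    have hfin : {z : Fin n → ℤ | (0 ≤ z ∧ z ≤ c) ∧ socFun A b z ≤ t}.Finite :=
      (Set.finite_Icc (0 : Fin n → ℤ) c).subset fun z hz => ⟨hz.1.1, hz.1.2⟩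
    obtain ⟨m, hxm, hm⟩ := hfin.exists_le_maximal
      (show x ∈ {z : Fin n → ℤ | (0 ≤ z ∧ z ≤ c) ∧ socFun A b z ≤ t} from ⟨hx.1.1, hle⟩)
    exact hx.1.2 m hm hxm
  -- the finset that covers the intersection
  let B : Finset (Fin n → ℤ) := insert 0
    ((Finset.univ ×ˢ hYfin.toFinset).biUnion fun q =>
      (fibre_finite (A := A) (b := b) t q.1 q.2).toFinset.image fun s => s + unitVec q.1)
  have hsub : (minimalNonDominated c Y ∩ minimalNonDominated c F) ⊆ (B : Set (Fin n → ℤ)) := by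
    intro x hx
    obtain ⟨hxY, hxF⟩ := hx
    have ht := hinf x hxF
    have hx0 : 0 ≤ x := hxY.1.1.1
    have hxc : x ≤ c := hxY.1.1.2
    rw [Finset.mem_coe, Finset.mem_insert]
    by_cases hxz : x = 0
    · exact Or.inl hxz
    right
    -- choose `i` in the support minimising the gradient
    have hne : (supp x).Nonempty := by
      rw [Finset.nonempty_iff_ne_empty]
      intro he
      apply hxz
      funext j
      by_contra hj
      have : j ∈ supp x := by simp only [supp, Finset.mem_filter, Finset.mem_univ, true_and]; exact hj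
      rw [he] at this
      simp at this
    obtain ⟨i, hi, hmin⟩ := Finset.exists_min_image (supp x) (grad A b x) hne
    have hxi : x i ≠ 0 := (Finset.mem_filter.1 hi).2
    set s : Fin n → ℤ := x - unitVec i with hs
    have hxs : s + unitVec i = x := by rw [hs]; abel
    have hs0 : 0 ≤ s := by
      intro k
      change (0 : ℤ) ≤ s k
      have e1 : s k = x k - unitVec i k := rfl
      have e2 : 0 ≤ x k := hx0 k
      by_cases hk : k = i
      · subst hk
        rw [unitVec_self] at e1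
        omega
      · rw [unitVec_ne hk] at e1
        omega
    have hsx : s ≤ x := by
      rw [hs]; exact sub_le_self _ (unitVec_nonneg i)
    -- `s` is dominated by some element of `Y`
    have hdom : ∃ y ∈ Y, s ≤ y := by
      by_contra hno
      push Not at hno
      have := hxY.2 (y := s) ⟨⟨hs0, hsx.trans hxc⟩, hno⟩ hsx
      have h1 : x i ≤ s i := this i
      have e1 : s i = x i - unitVec i i := rfl
      rw [unitVec_self] at e1
      omega
    obtain ⟨y, hy, hsy⟩ := hdom
    rw [Finset.mem_biUnion]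
    refine ⟨(i, y), ?_, ?_⟩
    · simp [hy]
    · rw [Finset.mem_image]
      refine ⟨s, ?_, hxs⟩
      rw [Set.Finite.mem_toFinset]
      refine ⟨hs0, hsy, ?_, ?_⟩
      · rw [hxs]; exact ht
      · intro j hj
        rw [hxs] at hj ⊢
        exact hmin j (by simp only [supp, Finset.mem_filter, Finset.mem_univ, true_and]; exact hj)
  have hcard : B.card ≤ 1 + n * (n + 1) ^ 7 * Y.ncard := by
    calc B.card ≤ _ + 1 := Finset.card_insert_le _ _
      _ ≤ (Finset.univ ×ˢ hYfin.toFinset : Finset (Fin n × (Fin n → ℤ))).card * (n + 1) ^ 7 + 1 := by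
          gcongr
          apply Finset.card_biUnion_le_card_mul
          intro q hq
          rw [Finset.mem_product] at hq
          have hqY : q.2 ∈ Y := by simpa using hq.2
          exact Finset.card_image_le.trans (fibre_ncard_le hA hb (hY hqY).1.2)
      _ = 1 + n * (n + 1) ^ 7 * Y.ncard := by
          rw [Finset.card_product, Finset.card_univ, Fintype.card_fin,
            ← Set.ncard_eq_toFinset_card Y hYfin]
          ring
  calc _ ≤ (B : Set (Fin n → ℤ)).ncard := Set.ncard_le_ncard hsub (Finset.finite_toSet _)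
    _ = B.card := Set.ncard_coe_finset _
    _ ≤ _ := hcard

end Pool.Agent.Results.MP_91ff8f_lc.PolyDualBound
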